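import Pool.Agent.helper17.EXT.Spec

set_option autoImplicit false

open Finset

namespace Pool.Agent.EXT

open Pool.Agent.EXC

theorem UPR_pp (i : Fin 6) : pn (pn i) = i := by
  revert i
  decide

theorem UPR_orth (i : Fin 6) (h : pn i ≠ i) : ip C6 (sr i) (sr (pn i)) = 0 := by
  revert i
  decide +kernel

theorem UPR_hb : ∀ α, ip C6 α α = 2 → ∃ β, ip C6 β β = 2 ∧ ip C6 α β = -1 :=
  (f_NBR 6 C6 1 _ _ f_DE6.2).1

section
variable {K : Type} [Field K]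

theorem UPR_mem {i : Fin 6} {γ : Fin 6 → ℤ} (hγ : ip C6 γ γ = 2) (hp : Pos γ) (h1 : γ ≠ sr i) (h2 : γ ≠ sr (pn i))
    {t : K} {g : Lm C6 K ≃ₗ[K] Lm C6 K} (hg : IsX C6 (E C6 γ) t g) : g ∈ UJ K i :=
  Subgroup.subset_closure ⟨γ, hγ, hp, h1, h2, t, hg⟩

theorem UPR_one' (a : Lm C6 K) : IsX C6 a 0 1 := by
  intro v
  unfold xe
  simp

theorem UPR_eq_one (a : Lm C6 K) (g : Lm C6 K ≃ₗ[K] Lm C6 K) (h : IsX C6 a 0 g) : g = 1 := by
  ext1 v
  rw [h v]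
  unfold xe
  simp

/-- the key step: the conjugate of a generator -/
theorem UPR_conj (i : Fin 6) {σ γ : Fin 6 → ℤ}
    (hσ : ip C6 σ σ = 2) (hγ : ip C6 γ γ = 2) (hp : Pos γ) (hn1 : γ ≠ sr i) (hn2 : γ ≠ sr (pn i)) (h2 : ip C6 σ γ ≠ -2)
    (h1 : ip C6 σ γ = -1 → Pos (σ + γ) ∧ σ + γ ≠ sr i ∧ σ + γ ≠ sr (pn i)) {t c : K}
    {g x : Lm C6 K ≃ₗ[K] Lm C6 K} (hg : IsX C6 (E C6 σ) t g) (hx : IsX C6 (E C6 γ) c x) : g * x * g⁻¹ ∈ UJ K i := by
  obtain ⟨-, hE, hEx, -⟩ := f_EXF 6 C6 K UPR_hb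
  obtain ⟨A1, A2, -⟩ := f_ACT 6 C6 K σ t hσ
  have hgG : g ∈ GE C6 K := Subgroup.subset_closure ⟨σ, hσ, t, hg⟩
  have hconj : IsX C6 (g (E C6 γ)) c (g * x * g⁻¹) := (hEx _ (hE γ hγ)).2.2.2.2.2.2.2.1 g hgG c x hx
  have hlo := (ip_abs_le hσ hγ).1
  rcases lt_or_ge (ip C6 σ γ) 0 with h0 | h0
  · have h3 : ip C6 σ γ = -1 := by omega
    obtain ⟨hp', hne1', hne2'⟩ := h1 h3
    have hroot : ip C6 (σ + γ) (σ + γ) = 2 := (add_root_iff hσ hγ).2 h3
    have h4 : ip C6 γ (σ + γ) = 1 := by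
      rw [ip_add_right, ip_comm C6 γ σ, h3, hγ]
      norm_num
    obtain ⟨K0, -⟩ := f_COL 6 C6 K γ (σ + γ) hγ hroot
    obtain ⟨K1, -⟩ := K0 h4
    obtain ⟨y, -, hy⟩ := (hEx _ (hE (σ + γ) hroot)).2.2.2.2.1 (t * (sg C6 σ γ : K) * c)
    have h5 : g * x * g⁻¹ = x * y := by
      ext1 v
      rw [hconj v, hg (E C6 γ), A2 γ hγ h3]
      have h6 := K1 1 (t * (sg C6 σ γ : K)) c v
      rw [one_smul, one_mul] at h6
      rw [h6, ← hy v, ← hx (y v)]
      rfl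
    rw [h5]
    exact mul_mem (UPR_mem hγ hp hn1 hn2 hx) (UPR_mem hroot hp' hne1' hne2' hy)
  · have h3 : g (E C6 γ) = E C6 γ := by rw [hg (E C6 γ), A1 γ hγ h0]
    rw [h3] at hconj
    exact UPR_mem hγ hp hn1 hn2 hconj

theorem UPR_sri (j : Fin 6) : (sr j : Fin 6 → ℤ) j = 1 := by simp [sr]

theorem UPR_srn (j k : Fin 6) (h : j ≠ k) : (sr k : Fin 6 → ℤ) j = 0 := by simp [sr, h]

/-- `sr j + γ` or `γ - sr j` is not one of the two simple roots -/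
theorem UPR_ne1 (j k : Fin 6) {γ : Fin 6 → ℤ} (hγ : ip C6 γ γ = 2) (hp : Pos γ) : sr j + γ ≠ sr k := by
  intro h
  by_cases hjk : j = k
  · subst hjk
    have h3 : γ = 0 := by simpa using h
    rw [h3] at hγ
    simp at hγ
  · have h1 := congrFun h j
    rw [Pi.add_apply, UPR_sri, UPR_srn j k hjk] at h1
    have := hp j
    omega

theorem UPR_ne2 (j k : Fin 6) (hjk : j = k ∨ ip C6 (sr j) (sr k) = 0) {γ : Fin 6 → ℤ} (hγ : ip C6 γ γ = 2)
    (h1 : ip C6 γ (sr j) = 1) : -sr j + γ ≠ sr k := by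
  intro h
  have h3 : γ = sr j + sr k := neg_add_eq_iff_eq_add.1 h
  rcases hjk with rfl | hjk
  · rw [h3, ip_add_left, ip_sr_self C6] at h1
    omega
  · rw [h3, ip_add_left, ip_sr_self C6, ip_comm C6 (sr k) (sr j), hjk] at h1
    omega

theorem UPR_part1 (i : Fin 6) : ∀ u ∈ UJ K i, ∀ j, (j = i ∨ j = pn i) → ∀ (t : K) (g : Lm C6 K ≃ₗ[K] Lm C6 K),
    (IsX C6 (E C6 (sr j)) t g ∨ IsX C6 (E C6 (-sr j)) t g) → g * u * g⁻¹ ∈ UJ K i := by
  intro u hu j hj t g hg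
  have hsr : ip C6 (sr j) (sr j) = 2 := ip_sr_self C6 j
  have key : UJ K i ≤ (UJ K i).comap (MulAut.conj g).toMonoidHom := by
    unfold UJ
    rw [Subgroup.closure_le]
    rintro x ⟨γ, hγ, hp, hn1, hn2, c, hx⟩
    show g * x * g⁻¹ ∈ UJ K i
    have hnj : γ ≠ sr j := by
      rcases hj with rfl | rfl
      · exact hn1
      · exact hn2
    obtain ⟨R1, R2⟩ := (f_RFP 6 C6 γ hγ hp).1 j hnj |>.2
    rcases hg with hg | hg
    · refine UPR_conj i hsr hγ hp hn1 hn2 ?_ ?_ hg hx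
      · intro h
        have h1 := eq_neg_of_ip_eq_neg_two hsr hγ h
        have h2 := hp j
        rw [h1, Pi.neg_apply, UPR_sri] at h2
        omega
      · intro h
        have h1 : ip C6 γ (sr j) = -1 := by rw [ip_comm, h]
        refine ⟨?_, UPR_ne1 j i hγ hp, UPR_ne1 j (pn i) hγ hp⟩
        rw [add_comm]
        exact R1 h1
    · refine UPR_conj i (neg_root C6 hsr) hγ hp hn1 hn2 ?_ ?_ hg hx
      · intro h
        have h1 := eq_neg_of_ip_eq_neg_two (neg_root C6 hsr) hγ h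
        rw [neg_neg] at h1
        exact hnj h1
      · intro h
        have h1 : ip C6 γ (sr j) = 1 := by
          rw [ip_comm]
          rw [ip_neg_left] at h
          omega
        refine ⟨?_, UPR_ne2 j i ?_ hγ h1, UPR_ne2 j (pn i) ?_ hγ h1⟩
        · have h3 : -sr j + γ = γ - sr j := by abel
          rw [h3]
          exact R2 h1
        · rcases hj with rfl | rfl
          · exact Or.inl rfl
          · by_cases h : pn i = i
            · exact Or.inl h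
            · right
              rw [ip_comm]
              exact UPR_orth i h
        · rcases hj with rfl | rfl
          · by_cases h : pn j = j
            · exact Or.inl h.symm
            · exact Or.inr (UPR_orth j h)
          · exact Or.inl rfl
  exact key hu

theorem UPR_part2 (i : Fin 6) : ∀ u ∈ UG C6 K, ∃ u' ∈ UJ K i, ∃ (s s' : K) (g g' : Lm C6 K ≃ₗ[K] Lm C6 K),
    IsX C6 (E C6 (sr i)) s g ∧ IsX C6 (E C6 (sr (pn i))) s' g' ∧ (pn i = i → s' = 0) ∧ u = u' * (g * g') := by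
  intro u hu
  obtain ⟨-, hE, hEx, -⟩ := f_EXF 6 C6 K UPR_hb
  have step : ∀ (γ : Fin 6 → ℤ) (c : K) (x : Lm C6 K ≃ₗ[K] Lm C6 K), ip C6 γ γ = 2 → Pos γ →
      IsX C6 (E C6 γ) c x → ∀ y : Lm C6 K ≃ₗ[K] Lm C6 K,
      (∃ u' ∈ UJ K i, ∃ (s s' : K) (g g' : Lm C6 K ≃ₗ[K] Lm C6 K),
        IsX C6 (E C6 (sr i)) s g ∧ IsX C6 (E C6 (sr (pn i))) s' g' ∧ (pn i = i → s' = 0) ∧ y = u' * (g * g')) →
      ∃ u' ∈ UJ K i, ∃ (s s' : K) (g g' : Lm C6 K ≃ₗ[K] Lm C6 K),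
        IsX C6 (E C6 (sr i)) s g ∧ IsX C6 (E C6 (sr (pn i))) s' g' ∧ (pn i = i → s' = 0) ∧ x * y = u' * (g * g') := by
    rintro γ c x hγ hp hx y ⟨u', hu', s, s', g, g', hg, hg', h0, rfl⟩
    by_cases hn1 : γ = sr i
    · rw [hn1] at hx
      refine ⟨x * u' * x⁻¹, UPR_part1 i u' hu' i (Or.inl rfl) c x (Or.inl hx), c + s, s', x * g, g', ?_, hg', h0, ?_⟩
      · exact (hEx _ (hE (sr i) (ip_sr_self C6 i))).2.2.2.2.2.2.2.2 c s x g hx hg
      · group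
    · by_cases hn2 : γ = sr (pn i)
      · rw [hn2] at hx
        have hpi : pn i ≠ i := by
          intro h
          rw [h] at hn2
          exact hn1 hn2
        have hcomm : x * g = g * x := by
          ext1 v
          have h1 := (f_COL 6 C6 K (sr (pn i)) (sr i) (ip_sr_self C6 _) (ip_sr_self C6 _)).2
            (by rw [ip_comm, UPR_orth i hpi]) c s v
          change x (g v) = g (x v)
          rw [hg v, hx v, hx, hg]
          exact h1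
        refine ⟨x * u' * x⁻¹, UPR_part1 i u' hu' (pn i) (Or.inr rfl) c x (Or.inl hx), s, c + s', g, x * g', hg, ?_,
          fun h => absurd h hpi, ?_⟩
        · exact (hEx _ (hE (sr (pn i)) (ip_sr_self C6 _))).2.2.2.2.2.2.2.2 c s' x g' hx hg'
        · have h2 : g * (x * g') = x * g * g' := by rw [hcomm, mul_assoc]
          rw [h2]
          group
      · exact ⟨x * u', mul_mem (UPR_mem hγ hp hn1 hn2 hx) hu', s, s', g, g', hg, hg', h0, by group⟩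
  unfold UG at hu
  refine Subgroup.closure_induction_left (p := fun u _ => ∃ u' ∈ UJ K i, ∃ (s s' : K)
    (g g' : Lm C6 K ≃ₗ[K] Lm C6 K), IsX C6 (E C6 (sr i)) s g ∧ IsX C6 (E C6 (sr (pn i))) s' g' ∧
    (pn i = i → s' = 0) ∧ u = u' * (g * g')) ?_ ?_ ?_ hu
  · exact ⟨1, one_mem _, 0, 0, 1, 1, UPR_one' _, UPR_one' _, fun _ => rfl, by group⟩
  · rintro x ⟨γ, hγ, hp, c, hx⟩ y - hy
    exact step γ c x hγ hp hx y hy
  · rintro x ⟨γ, hγ, hp, c, hx⟩ y - hy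
    obtain ⟨z, -, hz⟩ := (hEx _ (hE γ hγ)).2.2.2.2.1 (-c)
    have h1 : IsX C6 (E C6 γ) (c + -c) (x * z) :=
      (hEx _ (hE γ hγ)).2.2.2.2.2.2.2.2 c (-c) x z hx hz
    rw [add_neg_cancel] at h1
    have h2 : z = x⁻¹ := eq_inv_of_mul_eq_one_right (UPR_eq_one _ _ h1)
    rw [← h2]
    exact step γ (-c) z hγ hp hz y hy

end

/-- UPR -/
theorem UPR : UPR_stmt := by
  intro K _ i
  refine ⟨?_, UPR_part1 i, UPR_part2 i⟩
  unfold UJ UG
  refine Subgroup.closure_mono ?_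
  rintro x ⟨γ, hγ, hp, -, -, c, hx⟩
  exact ⟨γ, hγ, hp, c, hx⟩

end Pool.Agent.EXT
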