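import Pool.Agent.helper53.EXT.SpecB

set_option autoImplicit false

open Finset

namespace Pool.Agent.EXT

open Pool.Agent.EXC

theorem B03_add {K : Type} [Field K] (a : Lm C6 K) (t : K) (x y : Lm C6 K) :
    xe C6 a t (x + y) = xe C6 a t x + xe C6 a t y := by
  unfold xe
  rw [br_add_right, fm_add_right, smul_add, mul_add, add_smul]
  abel

theorem B03_two {K : Type} [Field K] (φ : ZMod 2 →+* K) : (1 : K) + 1 = 0 := by
  have h1 : φ (1 + 1) = φ 0 := congrArg φ (by decide)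
  rw [map_add, map_one, map_zero] at h1
  exact h1

theorem B03_vv {K : Type} [Field K] (φ : ZMod 2 →+* K) (v : Lm C6 K) : v + v = 0 := by
  have h1 : ((1 : K) + 1) • v = v + v := by rw [add_smul, one_smul]
  rw [← h1, B03_two φ, zero_smul]

theorem B03_sg {K : Type} [Field K] (φ : ZMod 2 →+* K) (s : ℤ) (h : s = 1 ∨ s = -1) : ((s : ℤ) : K) = 1 := by
  rcases h with rfl | rfl
  · simp
  · push_cast
    exact neg_eq_of_add_eq_zero_left (B03_two φ)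

theorem B03_r1 : ip C6 (sr 1) th = 1 := by decide +kernel
theorem B03_r2 : ip C6 (sr 1) (th - sr 1) = -1 := by decide +kernel
theorem B03_r3 : ip C6 (-sr 1) th = -1 := by decide +kernel
theorem B03_r4 : ip C6 (-sr 1) (th - sr 1) = 1 := by decide +kernel
theorem B03_r5 : sg C6 (sr 1) (th - sr 1) = 1 ∨ sg C6 (sr 1) (th - sr 1) = -1 := by decide +kernel
theorem B03_r6 : sg C6 (-sr 1) th = 1 ∨ sg C6 (-sr 1) th = -1 := by decide +kernel
theorem B03_r7 : ip C6 th th = 2 ∧ ip C6 (th - sr 1) (th - sr 1) = 2 := by decide +kernel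
theorem B03_r8 : ip C6 (sr 0) th = 0 ∧ ip C6 (sr 0) (th - sr 1) = 0 ∧ ip C6 (pv (sr 0)) th = 0 ∧
    ip C6 (pv (sr 0)) (th - sr 1) = 0 ∧ ip C6 (sr 0) (sr 0) = 2 ∧ ip C6 (pv (sr 0)) (pv (sr 0)) = 2 := by decide +kernel
theorem B03_r9 : ip C6 (-sr 0) th = 0 ∧ ip C6 (-sr 0) (th - sr 1) = 0 ∧ ip C6 (pv (-sr 0)) th = 0 ∧
    ip C6 (pv (-sr 0)) (th - sr 1) = 0 ∧ ip C6 (-sr 0) (-sr 0) = 2 ∧ ip C6 (pv (-sr 0)) (pv (-sr 0)) = 2 := by decide +kernel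
theorem B03_r10 : ip C6 (sr 1) (sr 1) = 2 ∧ ip C6 (-sr 1) (-sr 1) = 2 := by decide +kernel
theorem B03_r11 : pv th = th := by decide +kernel

/-- the action of `x_{α₁}(1)`, `x_{-α₁}(1)` on the two vectors -/
theorem B03_act {K : Type} [Field K] (φ : ZMod 2 →+* K) :
    xe C6 (E C6 (sr 1)) 1 (E C6 th) = (E C6 th : Lm C6 K) ∧
    xe C6 (E C6 (sr 1)) 1 (E C6 (th - sr 1)) = (E C6 (th - sr 1) + E C6 th : Lm C6 K) ∧
    xe C6 (E C6 (-sr 1)) 1 (E C6 th) = (E C6 th + E C6 (th - sr 1) : Lm C6 K) ∧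
    xe C6 (E C6 (-sr 1)) 1 (E C6 (th - sr 1)) = (E C6 (th - sr 1) : Lm C6 K) := by
  obtain ⟨A1, A2, -⟩ := f_ACT 6 C6 K (sr 1) 1 B03_r10.1
  obtain ⟨B1, B2, -⟩ := f_ACT 6 C6 K (-sr 1) 1 B03_r10.2
  refine ⟨A1 th B03_r7.1 (by rw [B03_r1]; norm_num), ?_, ?_, B1 _ B03_r7.2 (by rw [B03_r4]; norm_num)⟩
  · rw [A2 _ B03_r7.2 B03_r2, B03_sg φ _ B03_r5, mul_one, one_smul]
    have h : sr 1 + (th - sr 1) = th := by abel
    rw [h]
  · rw [B2 _ B03_r7.1 B03_r3, B03_sg φ _ B03_r6, mul_one, one_smul]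
    have h : -sr 1 + th = th - sr 1 := by abel
    rw [h]

/-- a root element which fixes both vectors -/
theorem B03_fix {K : Type} [Field K] (γ : Fin 6 → ℤ) (s t : K) (h1 : ip C6 γ th = 0) (h2 : ip C6 γ (th - sr 1) = 0)
    (h3 : ip C6 (pv γ) th = 0) (h4 : ip C6 (pv γ) (th - sr 1) = 0) (h5 : ip C6 γ γ = 2) (h6 : ip C6 (pv γ) (pv γ) = 2) :
    xe C6 (E C6 γ) s (xe C6 (E C6 (pv γ)) t (E C6 th)) = (E C6 th : Lm C6 K) ∧
    xe C6 (E C6 γ) s (xe C6 (E C6 (pv γ)) t (E C6 (th - sr 1))) = (E C6 (th - sr 1) : Lm C6 K) := by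
  obtain ⟨A1, -, -⟩ := f_ACT 6 C6 K γ s h5
  obtain ⟨B1, -, -⟩ := f_ACT 6 C6 K (pv γ) t h6
  refine ⟨?_, ?_⟩
  · rw [B1 th B03_r7.1 (by rw [h3]), A1 th B03_r7.1 (by rw [h1])]
  · rw [B1 _ B03_r7.2 (by rw [h4]), A1 _ B03_r7.2 (by rw [h2])]

/-- a permutation of order three on three points -/
theorem B03_ord {X : Type} (Z : Equiv.Perm X) (u w v : X) (h1 : Z u = v) (h2 : Z v = w) (h3 : Z w = u)
    (huv : v ≠ u) (huw : w ≠ u) (m : ℕ) (hm : (Z ^ m) u = u) : 3 ∣ m := by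
  have h4 : (Z ^ 3) u = u := by
    rw [pow_succ, pow_succ, pow_one, Equiv.Perm.mul_apply, Equiv.Perm.mul_apply, h1, h2, h3]
  have h5 : ∀ q, ((Z ^ 3) ^ q) u = u := by
    intro q
    induction q with
    | zero => rw [pow_zero]; rfl
    | succ q ih => rw [pow_succ, Equiv.Perm.mul_apply, h4, ih]
  have h6 : m % 3 + 3 * (m / 3) = m := Nat.mod_add_div m 3
  rw [← h6, pow_add, pow_mul, Equiv.Perm.mul_apply, h5] at hm
  have h7 : m % 3 < 3 := Nat.mod_lt _ (by norm_num)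
  rcases Nat.lt_or_ge (m % 3) 1 with h | h
  · omega
  · exfalso
    rcases Nat.lt_or_ge (m % 3) 2 with h' | h'
    · have h8 : m % 3 = 1 := by omega
      rw [h8, pow_one, h1] at hm
      exact huv hm
    · have h8 : m % 3 = 2 := by omega
      rw [h8, pow_succ, pow_one, Equiv.Perm.mul_apply, h1, h2] at hm
      exact huw hm

/-- B03 -/
theorem B03 (hB0R : B0R_stmt) (hSGR : SGR_stmt) (hGFX : GFX_stmt) (hGRQ : GRQ_stmt) (hFXF : FXF_stmt)
    (hESF : ESF_stmt) : B03_stmt := by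
  intro K _ _ φ x hx
  have hτ : ∀ y : K, RingEquiv.refl K (RingEquiv.refl K y) = y := fun _ => rfl
  obtain ⟨-, -, -, hL1, -, hL2, -, -, -, -, -, hL3, -⟩ := hB0R
  obtain ⟨E1, E2⟩ := hESF K (RingEquiv.refl K) hτ
  have hLth : LR th := ⟨B03_r7.1, B03_r11⟩
  have hu : (E C6 th : Lm C6 K) ∈ LT (RingEquiv.refl K) := (E2 _ (E1 th hLth)).2.2.1
  have hw : (E C6 (th - sr 1) : Lm C6 K) ∈ LT (RingEquiv.refl K) := (E2 _ (E1 _ hL3)).2.2.1
  obtain ⟨-, G2⟩ := hGFX K (RingEquiv.refl K) hτ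
  obtain ⟨f1, hf1, hf1x⟩ := (G2 _ (E1 _ hL1)).1 1 rfl
  obtain ⟨f2, hf2, hf2x⟩ := (G2 _ (E1 _ hL2)).1 1 rfl
  obtain ⟨a1, a2, a3, a4⟩ := B03_act (K := K) φ
  obtain ⟨U, hU⟩ : ∃ U : LT (RingEquiv.refl K), (U : Lm C6 K) = E C6 th := ⟨⟨_, hu⟩, rfl⟩
  obtain ⟨V, hV⟩ : ∃ V : LT (RingEquiv.refl K), (V : Lm C6 K) = E C6 (th - sr 1) := ⟨⟨_, hw⟩, rfl⟩
  obtain ⟨UV, hUVd⟩ : ∃ UV : LT (RingEquiv.refl K), UV = f1 V := ⟨_, rfl⟩
  have hUV : (UV : Lm C6 K) = E C6 (th - sr 1) + E C6 th := by rw [hUVd, hf1x V, hV, a2]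
  have hvv := B03_vv (K := K) φ
  -- the action of g = f1 f2
  have g1 : f1 (f2 U) = V := by
    apply Subtype.ext
    rw [hf1x, hf2x, hU, a3, B03_add, a1, a2, hV, add_comm (E C6 (th - sr 1) : Lm C6 K) (E C6 th), ← add_assoc, hvv,
      zero_add]
  have g2 : f1 (f2 V) = UV := by
    have h1 : f2 V = V := by
      apply Subtype.ext
      rw [hf2x, hV, a4]
    rw [h1, hUVd]
  have g3 : f1 (f2 UV) = U := by
    have h1 : f2 UV = U := by
      apply Subtype.ext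
      rw [hf2x, hUV, B03_add, a4, a3, hU, add_comm (E C6 th : Lm C6 K) (E C6 (th - sr 1)), ← add_assoc, hvv, zero_add]
    rw [h1]
    apply Subtype.ext
    rw [hf1x, hU, a1]
  -- x f1, x f2 fix the vectors
  obtain ⟨s1, hs1⟩ := hx.a1 ⟨f1, hf1⟩ ⟨1, rfl, hf1x⟩
  obtain ⟨s2, hs2⟩ := hx.a2 ⟨f2, hf2⟩ ⟨1, rfl, hf2x⟩
  have hfix1 : ∀ W : LT (RingEquiv.refl K), (W = U ∨ W = V ∨ W = UV) →
      ((x ⟨f1, hf1⟩ : GF (RingEquiv.refl K)) : Equiv.Perm (LT (RingEquiv.refl K))) W = W := by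
    obtain ⟨q1, q2, q3, q4, q5, q6⟩ := B03_r8
    obtain ⟨k1, k2⟩ := B03_fix (sr 0) s1 ((sn (sr 0) : K) * RingEquiv.refl K s1) q1 q2 q3 q4 q5 q6
    rintro W (rfl | rfl | rfl)
    · apply Subtype.ext
      rw [hs1, hU, k1]
    · apply Subtype.ext
      rw [hs1, hV, k2]
    · apply Subtype.ext
      rw [hs1, hUV, B03_add, B03_add, k1, k2]
  have hfix2 : ∀ W : LT (RingEquiv.refl K), (W = U ∨ W = V ∨ W = UV) →
      ((x ⟨f2, hf2⟩ : GF (RingEquiv.refl K)) : Equiv.Perm (LT (RingEquiv.refl K))) W = W := by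
    obtain ⟨q1, q2, q3, q4, q5, q6⟩ := B03_r9
    obtain ⟨k1, k2⟩ := B03_fix (-sr 0) s2 ((sn (-sr 0) : K) * RingEquiv.refl K s2) q1 q2 q3 q4 q5 q6
    rintro W (rfl | rfl | rfl)
    · apply Subtype.ext
      rw [hs2, hU, k1]
    · apply Subtype.ext
      rw [hs2, hV, k2]
    · apply Subtype.ext
      rw [hs2, hUV, B03_add, B03_add, k1, k2]
  -- the element Z
  obtain ⟨g, hg⟩ : ∃ g : GF (RingEquiv.refl K), g = ⟨f1, hf1⟩ * ⟨f2, hf2⟩ := ⟨_, rfl⟩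
  have hgU : (g : Equiv.Perm (LT (RingEquiv.refl K))) U = V := by rw [hg]; exact g1
  have hgV : (g : Equiv.Perm (LT (RingEquiv.refl K))) V = UV := by rw [hg]; exact g2
  have hgUV : (g : Equiv.Perm (LT (RingEquiv.refl K))) UV = U := by rw [hg]; exact g3
  have hxg : ∀ W : LT (RingEquiv.refl K), (W = U ∨ W = V ∨ W = UV) →
      ((x g : GF (RingEquiv.refl K)) : Equiv.Perm (LT (RingEquiv.refl K))) W = W := by
    intro W hW
    have h1 : ((x g : GF (RingEquiv.refl K)) : Equiv.Perm (LT (RingEquiv.refl K))) =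
        ((x ⟨f1, hf1⟩ : GF (RingEquiv.refl K)) : Equiv.Perm (LT (RingEquiv.refl K))) *
        ((x ⟨f2, hf2⟩ : GF (RingEquiv.refl K)) : Equiv.Perm (LT (RingEquiv.refl K))) := by
      rw [hg, map_mul]
      rfl
    rw [h1, Equiv.Perm.mul_apply, hfix2 W hW, hfix1 W hW]
  obtain ⟨Z, hZ⟩ : ∃ Z : GF (RingEquiv.refl K), Z = x g * g⁻¹ := ⟨_, rfl⟩
  have hZc : (Z : Equiv.Perm (LT (RingEquiv.refl K))) =
      ((x g : GF (RingEquiv.refl K)) : Equiv.Perm (LT (RingEquiv.refl K))) * (g : Equiv.Perm (LT (RingEquiv.refl K)))⁻¹ := by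
    rw [hZ]
    rfl
  have z1 : (Z : Equiv.Perm (LT (RingEquiv.refl K))) U = UV := by
    rw [hZc, Equiv.Perm.mul_apply, Equiv.Perm.inv_eq_iff_eq.2 hgUV.symm, hxg UV (Or.inr (Or.inr rfl))]
  have z2 : (Z : Equiv.Perm (LT (RingEquiv.refl K))) UV = V := by
    rw [hZc, Equiv.Perm.mul_apply, Equiv.Perm.inv_eq_iff_eq.2 hgV.symm, hxg V (Or.inr (Or.inl rfl))]
  have z3 : (Z : Equiv.Perm (LT (RingEquiv.refl K))) V = U := by
    rw [hZc, Equiv.Perm.mul_apply, Equiv.Perm.inv_eq_iff_eq.2 hgU.symm, hxg U (Or.inl rfl)]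
  have hUne : (U : Lm C6 K) ≠ 0 := by
    rw [hU]
    exact E_ne_zero C6 B03_r7.1
  have n1 : UV ≠ U := by
    intro h
    have h1 : (E C6 (th - sr 1) : Lm C6 K) + E C6 th = E C6 th := by rw [← hUV, h, hU]
    have h2 : (E C6 (th - sr 1) : Lm C6 K) = 0 := by simpa using h1
    exact E_ne_zero C6 B03_r7.2 h2
  have n2 : V ≠ U := by
    intro h
    have h1 : UV = V := by rw [← hgV, h, hgU, h]
    exact n1 (h1.trans h)
  have hfin : Finite (GF (RingEquiv.refl K)) := inferInstance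
  have key := hGRQ (GF (RingEquiv.refl K)) x g 3 1 (fun _ => 1) Z le_rfl (by
      refine Subgroup.subset_closure ⟨0, ?_⟩
      change 1 * (x g * g⁻¹) * 1⁻¹ = Z
      rw [hZ]
      group) (by
      intro m hm
      have h1 : MulAut.conj (Z ^ m) = 1 := by rw [map_pow, hm]
      have h2 : ∀ y, Z ^ m * y = y * Z ^ m := by
        intro y
        have h3 : MulAut.conj (Z ^ m) y = y := by rw [h1]; rfl
        rw [MulAut.conj_apply] at h3
        calc Z ^ m * y = Z ^ m * y * (Z ^ m)⁻¹ * Z ^ m := by group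
          _ = y * Z ^ m := by rw [h3]
      have h4 : Z ^ m = 1 := (hFXF K (RingEquiv.refl K) hτ).2 _ h2
      refine B03_ord (Z : Equiv.Perm (LT (RingEquiv.refl K))) U V UV z1 z2 z3 n1 n2 m ?_
      have h5 : (Z : Equiv.Perm (LT (RingEquiv.refl K))) ^ m = 1 := by
        have := congrArg (Subtype.val) h4
        simpa using this
      rw [h5]
      rfl)
  exact key

end Pool.Agent.EXT
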