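import Pool.Agent.helper17.EXT.SpecJ

/-!
# Row `ftj:JYC` (MP_561ff4_al)

The conjugate of `x(t) t⁻¹`.
-/

set_option autoImplicit false

open Finset

namespace Pool.Agent.EXT

open Pool.Agent.EXC

theorem JYC_xe_zero {K : Type} [Field K] (a v : Lm C6 K) : xe C6 a 0 v = v := by
  unfold xe
  simp

theorem JYC_WS (L : List (Fin 6)) : ∀ a b : Fin 6 → ℤ,
    WS (a, b) (L.foldl (fun v i => wS i v) a, L.foldl (fun v i => wS i v) b) := by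
  induction L with
  | nil => exact fun a b => Relation.ReflTransGen.refl
  | cons i L ih =>
    intro a b
    exact Relation.ReflTransGen.head ⟨i, rfl⟩ (ih (wS i a) (wS i b))

theorem JYC_w1 : ([0, 1, 2, 0, 3, 2, 0, 3, 1] : List (Fin 6)).foldl (fun v i => wS i v) th = ![0, 0, 1, 1, 1, 0] := by
  decide +kernel

theorem JYC_w2 : ([0, 1, 2, 0, 3, 2, 0, 3, 1] : List (Fin 6)).foldl (fun v i => wS i v) eta = ![0, 0, 0, 1, 1, 0] := by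
  decide +kernel

theorem JYC_ws : WS (th, eta) (![0, 0, 1, 1, 1, 0], ![0, 0, 0, 1, 1, 0]) := by
  have h := JYC_WS [0, 1, 2, 0, 3, 2, 0, 3, 1] th eta
  rw [JYC_w1, JYC_w2] at h
  exact h

theorem JYC_pm {K : Type} [Field K] (h2 : (1 : K) + 1 = 0) {s : ℤ} (hs : s = 1 ∨ s = -1) : (s : K) = 1 := by
  rcases hs with rfl | rfl
  · exact Int.cast_one
  · push_cast
    exact (eq_neg_of_add_eq_zero_left h2).symm

theorem JYC (hRTF : RTF_stmt) (hWPS : WPS_stmt) (hSGR : SGR_stmt) (hGFX : GFX_stmt) (hTOR : TOR_stmt) (hESF : ESF_stmt) (hB0A : B0A_stmt) (hJMQ : JMQ_stmt) (hSIG : SIG_stmt) : JYC_stmt := by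
  intro K _ φ x hx
  have htau : ∀ c, (RingEquiv.refl K) ((RingEquiv.refl K) c) = c := fun c => rfl
  have htau1 : ∀ c, (RingEquiv.refl K) c = c := fun c => rfl
  have h2 : (1 : K) + 1 = 0 := by
    rw [← map_one φ, ← map_add]
    have : (1 : ZMod 2) + 1 = 0 := by decide
    rw [this, map_zero]
  obtain ⟨-, -, -, -, -, -, rsn, -, -, -, -, -, -, rth, -⟩ := hRTF
  obtain ⟨g1, g2, g3, g4, g5, g6⟩ := hSGR K (RingEquiv.refl K) htau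
  obtain ⟨-, -, -, -, -, sE, -, -⟩ := hSIG K (RingEquiv.refl K) htau
  obtain ⟨e1, e2, e3, e4⟩ := f_EXF 6 C6 K (f_NBR 6 C6 1 th ![0, 2, 3, 4, 5] f_DE6.2).1
  have hExS := (hESF K (RingEquiv.refl K) htau).1 th rth
  obtain ⟨G1, G2⟩ := hGFX K (RingEquiv.refl K) htau
  obtain ⟨k1, k2, k3, k4, k5⟩ := G2 _ hExS
  obtain ⟨f₁, hf₁, hf₁X⟩ := k1 1 (htau1 1)
  have h0X : IsF (RingEquiv.refl K) (E C6 th) 0 (1 : Equiv.Perm (LT (RingEquiv.refl K))) := by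
    intro v
    rw [JYC_xe_zero]
    rfl
  have hne : f₁ ≠ 1 := by
    intro h
    rw [h] at hf₁X
    exact zero_ne_one (k4 0 1 1 h0X hf₁X)
  have hsq : f₁ * f₁ = 1 := by
    have h3 := k3 1 1 f₁ f₁ hf₁X hf₁X
    rw [h2] at h3
    refine Equiv.ext fun v => Subtype.ext ?_
    rw [h3 v, JYC_xe_zero]
    rfl
  let t : GF (RingEquiv.refl K) := ⟨f₁, hf₁⟩
  have htinv : t⁻¹ = t := by
    rw [inv_eq_iff_mul_eq_one]
    exact Subtype.ext hsq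
  have htne : t ≠ 1 := fun h => hne (congrArg Subtype.val h)
  obtain ⟨b, gb, hgb, hb'⟩ := hx t ⟨1, htau1 1, hf₁X⟩
  have hb : ∀ v : LT (RingEquiv.refl K), (((x t : GF (RingEquiv.refl K)) : Equiv.Perm (LT (RingEquiv.refl K))) v : Lm C6 K) =
      xe C6 (E C6 eta) b (xe C6 (E C6 (pv eta)) b v) := by
    intro v
    rw [hb' v]
    change gb (v : Lm C6 K) = _
    rw [hgb, htau1, JYC_pm h2 (rsn eta), one_mul]
  have hb0 : b ≠ 0 := by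
    intro h
    apply htne
    have hxt : x t = 1 := by
      refine Subtype.ext (Equiv.ext fun v => Subtype.ext ?_)
      rw [hb v, h, JYC_xe_zero, JYC_xe_zero]
      rfl
    exact x.injective (hxt.trans (map_one x).symm)
  have hthth : ip C6 th th = 2 := rth.1
  have hSe : SR eta := by
    refine ⟨?_, ?_⟩ <;> decide +kernel
  have hSg : SR ![0, 0, 0, 1, 1, 0] := by
    refine ⟨?_, ?_⟩ <;> decide +kernel
  have hLl : LR ![0, 0, 1, 1, 1, 0] := by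
    refine ⟨?_, ?_⟩ <;> decide +kernel
  have hL3 : LR (sr 3) := by
    refine ⟨?_, ?_⟩ <;> decide +kernel
  have hpg : ip C6 (pv ![0, 0, 0, 1, 1, 0]) (pv ![0, 0, 0, 1, 1, 0]) = 2 := by decide +kernel
  have hpe : ip C6 (pv eta) (pv eta) = 2 := by decide +kernel
  have i1 : ip C6 ![0, 0, 1, 1, 1, 0] (sr 3) = 0 := by decide +kernel
  have i2 : ip C6 ![0, 0, 0, 1, 1, 0] (sr 3) = 1 := by decide +kernel
  have i3 : ip C6 (pv ![0, 0, 0, 1, 1, 0]) (sr 3) = 1 := by decide +kernel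
  obtain ⟨k, hk, s, s', hs, hs', hkth, hket⟩ := hWPS K (RingEquiv.refl K) htau _ _ _ _ hthth hSe.1 JYC_ws
  rw [JYC_pm h2 hs, one_smul] at hkth
  rw [JYC_pm h2 hs', one_smul] at hket
  have hkpe : k (E C6 (pv eta)) = (E C6 (pv ![0, 0, 0, 1, 1, 0]) : Lm C6 K) := by
    have a1 := sE eta hSe.1
    have a2 := sE ![0, 0, 0, 1, 1, 0] hSg.1
    rw [JYC_pm h2 (rsn _), one_smul] at a1 a2
    rw [← a1, ← (g6 k hk).2.2, hket, a2]
  obtain ⟨h, hh, hhE⟩ := hTOR K (RingEquiv.refl K) htau (sr 3) hL3 b⁻¹ (htau1 _) (inv_ne_zero hb0)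
  have hhk : h * k ∈ GS (RingEquiv.refl K) := mul_mem hh hk
  obtain ⟨f₀, hf₀, hf₀h⟩ := G1 (h * k) hhk
  obtain ⟨y1, hy1, hy1X⟩ := g1 ![0, 0, 0, 1, 1, 0] 1 hSg
  obtain ⟨y0, hy0, hy0X⟩ := g2 ![0, 0, 1, 1, 1, 0] 1 hLl (htau1 1)
  obtain ⟨J1, J2, -⟩ := hJMQ
  have hM0 := (J1 K φ y0).1 hy0X
  have hM1 := (J1 K φ y1).2 hy1X
  obtain ⟨B1, B2, B3, B4, B5, B6, B7, B8, B9⟩ := hB0A K φ y1
  obtain ⟨hhE', hhA, -⟩ := g6 (h * k) hhk
  -- action of `h k`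
  have hE3 : (h * k) (E C6 th) = (E C6 ![0, 0, 1, 1, 1, 0] : Lm C6 K) := by
    change h (k (E C6 th)) = _
    rw [hkth, hhE _ hLl.1, i1, zpow_zero, one_smul]
  have hE2 : (h * k) (E C6 eta) = b⁻¹ • (E C6 ![0, 0, 0, 1, 1, 0] : Lm C6 K) := by
    change h (k (E C6 eta)) = _
    rw [hket, hhE _ hSg.1, i2, zpow_one]
  have hE4 : (h * k) (E C6 (pv eta)) = b⁻¹ • (E C6 (pv ![0, 0, 0, 1, 1, 0]) : Lm C6 K) := by
    change h (k (E C6 (pv eta))) = _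
    rw [hkpe, hhE _ hpg, i3, zpow_one]
  have Xe := f_XAU 6 C6 K _ (e3 _ (e2 eta hSe.1)).1
  have Xp := f_XAU 6 C6 K _ (e3 _ (e2 (pv eta) hpe)).1
  have Xt := f_XAU 6 C6 K _ (e3 _ (e2 th hthth)).1
  have Yg := f_XAU 6 C6 K _ (e3 _ (e2 ![0, 0, 0, 1, 1, 0] hSg.1)).1
  have Yp := f_XAU 6 C6 K _ (e3 _ (e2 (pv ![0, 0, 0, 1, 1, 0]) hpg)).1
  refine ⟨t, ⟨f₀, hf₀⟩, y1 * y0, mul_mem hy1 hy0, ?_, fun v => ?_⟩
  · rw [J2]
    exact B7 y0 _ _ hM1 hM0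
  · rw [htinv]
    have c1 : (((⟨f₀, hf₀⟩ * (x t * t) * (⟨f₀, hf₀⟩ : GF (RingEquiv.refl K))⁻¹ : GF (RingEquiv.refl K)) : Equiv.Perm (LT (RingEquiv.refl K))) v : Lm C6 K) =
        (h * k) (((x t : GF (RingEquiv.refl K)) : Equiv.Perm (LT (RingEquiv.refl K))) (f₁ (f₀⁻¹ v)) : Lm C6 K) := by
      rw [← hf₀h]
      rfl
    rw [c1, hb, hf₁X, (Xe.2.2.1 (h * k) hhA).2, (Xp.2.2.1 (h * k) hhA).2, (Xt.2.2.1 (h * k) hhA).2, hE2, hE4, hE3]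
    have c2 : (h * k) ((f₀⁻¹ v : LT (RingEquiv.refl K)) : Lm C6 K) = v := by
      rw [← hf₀h]
      congr 1
      exact f₀.apply_symm_apply v
    rw [c2, (Yg.2.2.2 b⁻¹).2, (Yp.2.2.2 b⁻¹).2]
    have c3 : (y1 * y0) (v : Lm C6 K) = y1 (y0 v) := rfl
    rw [c3, hy1X, hy0X]
    have c4 : b⁻¹ * b = 1 := inv_mul_cancel₀ hb0
    rw [c4, htau1, JYC_pm h2 (rsn _), one_mul]

end Pool.Agent.EXT
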