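import Pool.Agent.helper32.EXT.Spec7

set_option autoImplicit false

open Finset

namespace Pool.Agent.EXT

open Pool.Agent.EXC

theorem LA7_add {K : Type} [Field K] (a : Lm C6 K) (t : K) (x y : Lm C6 K) :
    xe C6 a t (x + y) = xe C6 a t x + xe C6 a t y := by
  unfold xe
  rw [br_add_right, fm_add_right, smul_add, mul_add, add_smul]
  abel

theorem LA7_smul {K : Type} [Field K] (a : Lm C6 K) (t c : K) (x : Lm C6 K) :
    xe C6 a t (c • x) = c • xe C6 a t x := by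
  unfold xe
  rw [br_smul_right, fm_smul_right, smul_add, smul_add, smul_smul, smul_smul, smul_smul, mul_comm t c]
  congr 2
  ring

theorem LA7_sum {K : Type} [Field K] (a : Lm C6 K) (t : K) {m : ℕ} (v : Fin m → K) (w : Fin m → Lm C6 K) :
    xe C6 a t (∑ i, v i • w i) = ∑ i, v i • xe C6 a t (w i) := by
  let L : Lm C6 K →ₗ[K] Lm C6 K :=
    { toFun := xe C6 a t
      map_add' := LA7_add a t
      map_smul' := fun c x => LA7_smul a t c x }
  have h : L (∑ i, v i • w i) = ∑ i, v i • L (w i) := by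
    rw [map_sum]
    exact Finset.sum_congr rfl fun i _ => map_smul L _ _
  exact h

/-- pure linear algebra -/
theorem LA7_lin {F M : Type} [Field F] [AddCommGroup M] [Module F M] (e : Fin 8 → M) (v : Fin 8 → F)
    (p1 j1 p2 j2 : Fin 8) (a b : F) :
    (∑ i, v i • (e i + (if i = p1 then a • e j1 else 0) + (if i = p2 then b • e j2 else 0))) =
      ∑ j, (v j + (if j = j1 then a * v p1 else 0) + (if j = j2 then b * v p2 else 0)) • e j := by
  simp only [smul_add, add_smul, Finset.sum_add_distrib, smul_ite, ite_smul, smul_zero, zero_smul,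
    Finset.sum_ite_eq', Finset.mem_univ, if_true]
  simp only [smul_smul, mul_comm]

/-- one letter on one of the eight vectors, the moving case -/
theorem LA7_mov {K : Type} [Field K] (k : Fin 24) (t : K) (i j : Fin 8) (ε : ℤ)
    (e3 : ip C6 (lt7 k) (mu7 i) = -1) (e4 : mu7 j = lt7 k + mu7 i) (e5 : sg C6 (lt7 k) (mu7 i) = ε)
    (e6 : ip C6 (lt7 k) (pv (mu7 i)) = -1) (e7 : pv (mu7 j) = lt7 k + pv (mu7 i))
    (e8 : sn (mu7 i) * sg C6 (lt7 k) (pv (mu7 i)) = ε * sn (mu7 j)) :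
    xe C6 (E C6 (lt7 k)) t ((E C6 (mu7 i) : Lm C6 K) + (sn (mu7 i) : K) • (E C6 (pv (mu7 i)) : Lm C6 K)) =
      ((E C6 (mu7 i) : Lm C6 K) + (sn (mu7 i) : K) • (E C6 (pv (mu7 i)) : Lm C6 K)) +
        (t * (ε : K)) • ((E C6 (mu7 j) : Lm C6 K) + (sn (mu7 j) : K) • (E C6 (pv (mu7 j)) : Lm C6 K)) := by
  obtain ⟨-, A2, -⟩ := f_ACT 6 C6 K (lt7 k) t (lt7_LR k).1
  have e9 : (sn (mu7 i) : K) * (sg C6 (lt7 k) (pv (mu7 i)) : K) = (ε : K) * (sn (mu7 j) : K) := by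
    have := congrArg (Int.cast : ℤ → K) e8
    push_cast at this
    exact this
  rw [LA7_add, LA7_smul, A2 (mu7 i) (mu7_root i).1 e3, A2 (pv (mu7 i)) (mu7_root i).2.1 e6, ← e4, ← e7, e5,
    smul_add, smul_add, smul_smul, smul_smul]
  have e10 : (sn (mu7 i) : K) * (t * (sg C6 (lt7 k) (pv (mu7 i)) : K)) = t * (ε : K) * (sn (mu7 j) : K) := by
    calc (sn (mu7 i) : K) * (t * (sg C6 (lt7 k) (pv (mu7 i)) : K))
        = t * ((sn (mu7 i) : K) * (sg C6 (lt7 k) (pv (mu7 i)) : K)) := by ring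
      _ = _ := by rw [e9]; ring
  rw [e10]
  abel

/-- LA7 -/
theorem LA7 : LA7_stmt := by
  intro K _ k t v
  obtain ⟨A1, -, -⟩ := f_ACT 6 C6 K (lt7 k) t (lt7_LR k).1
  have h1 : ∀ i : Fin 8, xe C6 (E C6 (lt7 k)) t
      ((E C6 (mu7 i) : Lm C6 K) + (sn (mu7 i) : K) • (E C6 (pv (mu7 i)) : Lm C6 K)) =
      (((E C6 (mu7 i) : Lm C6 K) + (sn (mu7 i) : K) • (E C6 (pv (mu7 i)) : Lm C6 K)) +
        (if i = (ta7 k).1 then (t * ((ta7 k).2.2.1 : K)) • ((E C6 (mu7 (ta7 k).2.1) : Lm C6 K) +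
          (sn (mu7 (ta7 k).2.1) : K) • (E C6 (pv (mu7 (ta7 k).2.1)) : Lm C6 K)) else 0) +
        (if i = (ta7 k).2.2.2.1 then (t * ((ta7 k).2.2.2.2.2 : K)) • ((E C6 (mu7 (ta7 k).2.2.2.2.1) : Lm C6 K) +
          (sn (mu7 (ta7 k).2.2.2.2.1) : K) • (E C6 (pv (mu7 (ta7 k).2.2.2.2.1)) : Lm C6 K)) else 0)) := by
    intro i
    rcases ta7_spec k i with ⟨e1, e2, e3, e4, e5, e6, e7, e8⟩ | ⟨e1, e2, e3, e4, e5, e6, e7, e8⟩ | ⟨e1, e2, e3, e4⟩
    · rw [if_pos e1, if_neg e2, add_zero]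
      exact LA7_mov k t i _ _ e3 e4 e5 e6 e7 e8
    · rw [if_neg e2, if_pos e1, add_zero]
      exact LA7_mov k t i _ _ e3 e4 e5 e6 e7 e8
    · rw [if_neg e1, if_neg e2, add_zero, add_zero, LA7_add, LA7_smul, A1 (mu7 i) (mu7_root i).1 e3,
        A1 (pv (mu7 i)) (mu7_root i).2.1 e4]
  unfold em7
  rw [LA7_sum]
  simp only [h1]
  exact LA7_lin (fun i => ((E C6 (mu7 i) : Lm C6 K) + (sn (mu7 i) : K) • (E C6 (pv (mu7 i)) : Lm C6 K))) v
    (ta7 k).1 (ta7 k).2.1 (ta7 k).2.2.2.1 (ta7 k).2.2.2.2.1 (t * ((ta7 k).2.2.1 : K)) (t * ((ta7 k).2.2.2.2.2 : K))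

end Pool.Agent.EXT
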